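import Mathlib
import Pool.Agent.Q186.Brat.One2

/-!
# A finite tail-invariant measure without a finite Perron eigenvalue
-/

set_option autoImplicit false

open MeasureTheory Set Filter Topology

namespace Pool.Agent.Results.MP_17dcfb_an.FiniteWithoutPerron

open Pool.Agent.Q186.Brat

/-- There is a stationary generalized Bratteli diagram with a countably infinite vertex set whose
incidence matrix `F` is irreducible and aperiodic with `((F ^ n)_{vw}) ^ (1 / n) → ∞` for all `v, w`,
and which carries a tail-invariant probability measure that is positive on all cylinder sets and has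
no atoms. -/
theorem result :
    ∃ (V : Type) (_ : Countable V) (_ : Infinite V) (D : Diagram V),
      D.Irreducible ∧ D.Aperiodic ∧
      (∀ v w, Tendsto (fun n : ℕ => ((D.pow n v w : ℕ) : ℝ) ^ (1 / (n : ℝ))) atTop atTop) ∧
      ∃ μ : Measure D.Path, IsProbabilityMeasure μ ∧ D.TailInvariant μ ∧
        (∀ (n : ℕ) (x : D.Path), 0 < μ (D.cyl n x)) ∧ ∀ x : D.Path, μ {x} = 0 :=
  ⟨One.Vx, inferInstance, inferInstance, One.DD, One.irreducible, One.aperiodic, One.perron,
    One.μ, inferInstance, One.μ_tail, One.μ_pos, One.μ_atom⟩

end Pool.Agent.Results.MP_17dcfb_an.FiniteWithoutPerron
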