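import Mathlib
import Pool.Agent.Q186.Brat.Two2

/-!
# The tridiagonal generalized Bratteli diagram carries no finite tail-invariant measure
-/

set_option autoImplicit false

open MeasureTheory Set

namespace Pool.Agent.Results.MP_17dcfb_an.TridiagonalNoFinite

open Pool.Agent.Q186.Brat

/-- the diagram with the tridiagonal incidence matrix -/
def triD : Diagram ℕ where
  E := {p : ℕ × ℕ × ℕ // p.2.2 < tri p.1 p.2.1}
  src e := e.1.2.1
  tgt e := e.1.1
  out_finite w := by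
    have hinj : Function.Injective
        (Subtype.val : {p : ℕ × ℕ × ℕ // p.2.2 < tri p.1 p.2.1} → ℕ × ℕ × ℕ) :=
      Subtype.val_injective
    apply Set.Finite.of_finite_image _ hinj.injOn
    apply ((Set.finite_Iic (w + 1)).prod ((Set.finite_Iic w).prod (Set.finite_Iic (w + 1)))).subset
    rintro _ ⟨⟨⟨v, u, k⟩, hk⟩, h1, rfl⟩
    simp only [Set.mem_ofPred_eq] at h1
    subst h1
    simp only [tri] at hk
    split_ifs at hk with h2 h3
    · simp only [mem_prod, mem_Iic]; omega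
    · simp only [mem_prod, mem_Iic]; omega
    · omega
  in_finite v := by
    have hinj : Function.Injective
        (Subtype.val : {p : ℕ × ℕ × ℕ // p.2.2 < tri p.1 p.2.1} → ℕ × ℕ × ℕ) :=
      Subtype.val_injective
    apply Set.Finite.of_finite_image _ hinj.injOn
    apply ((Set.finite_Iic v).prod ((Set.finite_Iic (v + 1)).prod (Set.finite_Iic (v + 1)))).subset
    rintro _ ⟨⟨⟨w, u, k⟩, hk⟩, h1, rfl⟩
    simp only [Set.mem_ofPred_eq] at h1
    subst h1
    simp only [tri] at hk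
    split_ifs at hk with h2 h3
    · simp only [mem_prod, mem_Iic]; omega
    · simp only [mem_prod, mem_Iic]; omega
    · omega
  out_nonempty v := ⟨⟨(v, v, 0), by simp [tri]⟩, rfl⟩
  in_nonempty v := ⟨⟨(v, v, 0), by simp [tri]⟩, rfl⟩

theorem triD_F (v w : ℕ) : triD.F v w = tri v w := by
  unfold Diagram.F
  have hinj : Function.Injective
      (Subtype.val : {p : ℕ × ℕ × ℕ // p.2.2 < tri p.1 p.2.1} → ℕ × ℕ × ℕ) :=
    Subtype.val_injective
  have h1 : (Subtype.val : {p : ℕ × ℕ × ℕ // p.2.2 < tri p.1 p.2.1} → ℕ × ℕ × ℕ) ''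
      {e | e.1.2.1 = w ∧ e.1.1 = v} = (fun k => (v, w, k)) '' (Set.Iio (tri v w)) := by
    ext ⟨a, b, k⟩
    constructor
    · rintro ⟨⟨⟨a', b', k'⟩, hk⟩, ⟨h1, h2⟩, h3⟩
      simp only at h1 h2
      subst h1 h2
      simp only [Prod.mk.injEq] at h3
      obtain ⟨rfl, rfl, rfl⟩ := h3
      exact ⟨k', hk, rfl⟩
    · rintro ⟨k', hk, h3⟩
      simp only [Prod.mk.injEq] at h3
      obtain ⟨rfl, rfl, rfl⟩ := h3
      exact ⟨⟨(v, w, k'), hk⟩, ⟨rfl, rfl⟩, rfl⟩
  have h2 := Set.ncard_image_of_injective {e : {p : ℕ × ℕ × ℕ // p.2.2 < tri p.1 p.2.1} |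
    e.1.2.1 = w ∧ e.1.1 = v} hinj
  change Set.ncard {e : {p : ℕ × ℕ × ℕ // p.2.2 < tri p.1 p.2.1} |
    e.1.2.1 = w ∧ e.1.1 = v} = _
  rw [← h2, h1, Set.ncard_image_of_injective _ (by intro a b h; simpa using h),
    ← Finset.coe_Iio, Set.ncard_coe_finset, Nat.card_Iio]

/-- Stationary generalized Bratteli diagrams with the incidence matrix `tri` (on the indices
`i = v + 1 ≥ 1` it is the matrix with `F_{ii} = i + 1` and `F_{i,i+1} = F_{i+1,i} = 1`) exist, and
none of them carries a finite tail-invariant measure. -/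
theorem result :
    (∃ D : Diagram ℕ, ∀ v w, D.F v w = tri v w) ∧
    ∀ D : Diagram ℕ, (∀ v w, D.F v w = tri v w) →
      ¬ ∃ μ : Measure D.Path, D.TailInvariant μ ∧ μ univ < ⊤ :=
  ⟨⟨triD, triD_F⟩, fun _ hD ⟨_, hμ, hfin⟩ => no_finite hD hμ hfin.ne⟩

end Pool.Agent.Results.MP_17dcfb_an.TridiagonalNoFinite
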